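import Pool.Agent.K6.H10.AV.Stm

/-!
MP_2fc7fa_gt, piece OPC of `call10`: integral operators on spaces of continuous maps are continuous.
Written by helper92.
-/

set_option autoImplicit false

open scoped ContDiff Topology Quaternion ComplexConjugate
open MeasureTheory

noncomputable section

namespace Pool.Agent.K6.H10.AV.OPC

open Pool.Agent.K6.H10.AV

theorem cont_int (X : Type) [TopologicalSpace X] [CompactSpace X] [SecondCountableTopology X]
    [MeasurableSpace X] [BorelSpace X] (μ : Measure X) [IsFiniteMeasure μ]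
    (F : Type) [NormedAddCommGroup F] [NormedSpace ℝ F] :
    Continuous (fun h : C(X, F) => ∫ x, h x ∂μ) := by
  have hint : ∀ h : C(X, F), Integrable h μ := by
    intro h
    obtain ⟨C, hC⟩ := (isCompact_univ (X := X)).exists_bound_of_continuousOn
      (h.continuous.continuousOn (s := Set.univ))
    exact Integrable.of_bound h.continuous.aestronglyMeasurable C
      (Filter.Eventually.of_forall fun x => hC x trivial)
  have hL : LipschitzWith ⟨μ.real Set.univ, measureReal_nonneg⟩
      (fun h : C(X, F) => ∫ x, h x ∂μ) := by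
    refine LipschitzWith.of_dist_le_mul fun h₁ h₂ => ?_
    rw [dist_eq_norm, ← integral_sub (hint h₁) (hint h₂), dist_eq_norm]
    refine (norm_integral_le_of_norm_le_const (C := ‖h₁ - h₂‖)
      (Filter.Eventually.of_forall fun x => ?_)).trans ?_
    · exact (h₁ - h₂).norm_coe_le_norm x
    · rw [mul_comm]
      rfl
  exact hL.continuous

theorem t_OPC : S_OPC := by
  intro X _ _ _ _ _ μ _ Y E F _ _ _ _ _ _ T s
  have hG : Continuous (fun q : (C(Y, E) × Y) × X =>
      T (q.2, q.1.2) (q.1.1 (s (q.2, q.1.2)))) := by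
    have h1 : Continuous (fun q : (C(Y, E) × Y) × X => T (q.2, q.1.2)) := by fun_prop
    have h2 : Continuous (fun q : (C(Y, E) × Y) × X => s (q.2, q.1.2)) := by fun_prop
    have h3 : Continuous (fun q : (C(Y, E) × Y) × X => q.1.1 (s (q.2, q.1.2))) :=
      (continuous_fst.comp continuous_fst).eval h2
    exact h1.clm_apply h3
  let G : C((C(Y, E) × Y) × X, F) := ⟨_, hG⟩
  have hI : Continuous (fun q : C(Y, E) × Y => ∫ x, T (x, q.2) (q.1 (s (x, q.2))) ∂μ) :=
    (cont_int X μ F).comp G.curry.continuous
  let I : C(C(Y, E) × Y, F) := ⟨_, hI⟩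
  exact ⟨I.curry, fun ψ y => rfl⟩

end Pool.Agent.K6.H10.AV.OPC
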