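import Pool.Agent.K6.H10.AV.Mean
import Pool.Agent.K6.H10.AV.OPC

/-!
# The average depends continuously on the form
-/

set_option autoImplicit false

open scoped ContDiff Topology ComplexConjugate
open MeasureTheory

noncomputable section

namespace Pool.Agent.K6.H10.AV

open Pool.Agent.K6.H10.SY
open Pool.Agent.K6.H10.SU

/-- the pairs of basis vectors -/
abbrev QQ : Type := (Fin 3 × Fin 2) × (Fin 3 × Fin 2)

section

variable {X : Type} [Group X] [TopologicalSpace X] {ρ : X → V →L[ℝ] V} (D : Dat ρ)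
  [CompactSpace X] [SecondCountableTopology X] [MeasurableSpace X] [BorelSpace X]
  (μ : Measure X) [IsFiniteMeasure μ]

/-- the average as a form -/
def meanF (D : Dat ρ) (Ω : Forms) : Forms := ⟨mean2 μ ρ Ω.val, isForm_mean2 D μ Ω.property⟩

/-- the coefficients of the sum -/
def cq (ρ : X → V →L[ℝ] V) (v w : V) (q : QQ) (x : X) : ℝ →L[ℝ] ℝ :=
  (co (ρ x v) q.1 * co (ρ x w) q.2) • ContinuousLinearMap.id ℝ ℝ

include D in
omit [CompactSpace X] [SecondCountableTopology X] [MeasurableSpace X] [BorelSpace X] in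
theorem continuous_cq (v w : V) (q : QQ) : Continuous (cq ρ v w q) := by
  have h1 : ∀ (v : V) (k : Fin 3 × Fin 2), Continuous fun x => co (ρ x v) k := fun v k =>
    (continuous_co k).comp (D.cont.clm_apply continuous_const)
  exact ((h1 v q.1).mul (h1 w q.2)).smul continuous_const

/-- the coefficient functions of the form -/
def fq (Ω : V → Bil) (q : QQ) (y : V) : ℝ := Ω y (bs q.1) (bs q.2)

theorem smooth_fq (Ω : Forms) (q : QQ) : ContDiffOn ℝ ∞ (fq Ω.val q) V' :=
  coef_smooth Ω.property.smooth _ _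

theorem bil_sum (B : Bil) (v w : V) :
    B v w = ∑ q : QQ, co v q.1 * co w q.2 * B (bs q.1) (bs q.2) := by
  have h1 : B v w = ∑ i, co v i * B (bs i) w := lin_sum (B.flip w) v
  have h2 : ∑ q : QQ, co v q.1 * co w q.2 * B (bs q.1) (bs q.2) =
      ∑ i, ∑ j, co v i * co w j * B (bs i) (bs j) := Fintype.sum_prod_type _
  rw [h1, h2]
  refine Finset.sum_congr rfl fun i _ => ?_
  rw [lin_sum (B (bs i)) w, Finset.mul_sum]
  refine Finset.sum_congr rfl fun j _ => ?_
  rw [mul_assoc]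

include D in
theorem mean2_sum (Ω : Forms) (v w : V) {y : V} (hy : y ≠ 0) :
    mean2 μ ρ Ω.val y v w = ∑ q : QQ, mm μ ρ (cq ρ v w q) (fq Ω.val q) y := by
  rw [mean2_apply D μ Ω.property.smooth hy]
  unfold mm
  rw [← integral_finsetSum]
  · refine integral_congr_ae (Filter.Eventually.of_forall fun x => ?_)
    show Ω.val (ρ x y) (ρ x v) (ρ x w) = ∑ q : QQ, cq ρ v w q x (fq Ω.val q (ρ x y))
    rw [bil_sum]
    rfl
  · intro q _
    refine intg μ ?_
    refine (continuous_cq D v w q).clm_apply ?_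
    exact (smooth_fq Ω q).continuousOn.comp_continuous (D.cont.clm_apply continuous_const)
      fun x => D.ne hy x

include D in
theorem iter_mean (Ω : Forms) (v w : V) (m : ℕ) {z : V} (hz : z ≠ 0) :
    iteratedFDeriv ℝ m (fun y => mean2 μ ρ Ω.val y v w) z =
      ∑ q : QQ, ∫ x, tt m (cq ρ v w q x) (ρ x) (iteratedFDeriv ℝ m (fq Ω.val q) (ρ x z)) ∂μ := by
  have h1 : (fun y => mean2 μ ρ Ω.val y v w) =ᶠ[𝓝 z]
      fun y => ∑ q : QQ, mm μ ρ (cq ρ v w q) (fq Ω.val q) y := by
    filter_upwards [isOpen_V'.mem_nhds hz] with y hy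
    exact mean2_sum D μ Ω v w hy
  rw [(h1.iteratedFDeriv ℝ m).self_of_nhds, ← iteratedFDerivWithin_of_isOpen m isOpen_V' hz,
    iteratedFDerivWithin_fun_sum_apply isOpen_V'.uniqueDiffOn hz]
  · refine Finset.sum_congr rfl fun q _ => ?_
    rw [iteratedFDerivWithin_of_isOpen m isOpen_V' hz,
      iter_mm μ D.cont (continuous_cq D v w q) isOpen_V' D.map TAY.t_TAY (smooth_fq Ω q) m hz]
  · intro q _
    exact ((smooth_mm μ D.cont (continuous_cq D v w q) isOpen_V' D.map TAY.t_TAY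
      (smooth_fq Ω q)).contDiffWithinAt hz).of_le (by exact_mod_cast le_top)

theorem continuous_meanF : Continuous (meanF μ D) := by
  have : LocallyCompactSpace V' := isOpen_V'.locallyCompactSpace
  refine continuous_forms fun v w m => ?_
  let s : C(X × V', V') := ⟨fun p => ⟨ρ p.1 p.2, D.ne p.2.2 p.1⟩,
    ((D.cont.comp continuous_fst).clm_apply
      (continuous_subtype_val.comp continuous_snd)).subtype_mk _⟩
  let T : QQ → C(X × V', (V [×m]→L[ℝ] ℝ) →L[ℝ] (V [×m]→L[ℝ] ℝ)) := fun q =>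
    ⟨fun p => tt m (cq ρ v w q p.1) (ρ p.1),
      (continuous_tt m).comp (((continuous_cq D v w q).comp continuous_fst).prodMk
        (D.cont.comp continuous_fst))⟩
  have h1 : ∀ q : QQ, ∃ Φ : C(C(V', V [×m]→L[ℝ] ℝ), C(V', V [×m]→L[ℝ] ℝ)),
      ∀ (ψ : C(V', V [×m]→L[ℝ] ℝ)) (y : V'), Φ ψ y = ∫ x, T q (x, y) (ψ (s (x, y))) ∂μ :=
    fun q => OPC.t_OPC X μ V' (V [×m]→L[ℝ] ℝ) (V [×m]→L[ℝ] ℝ) (T q) s
  choose Φ hΦ using h1
  have h2 : ∀ Ω : Forms, jet v w m (meanF μ D Ω) =
      ∑ q : QQ, Φ q (jet (bs q.1) (bs q.2) m Ω) := by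
    intro Ω
    ext1 z
    rw [ContinuousMap.sum_apply]
    refine (iter_mean D μ Ω v w m z.2).trans (Finset.sum_congr rfl fun q _ => ?_)
    exact (hΦ q (jet (bs q.1) (bs q.2) m Ω) z).symm
  simp only [h2]
  exact continuous_finsetSum _ fun q _ => (Φ q).continuous.comp (continuous_jet _ _ m)

end

end Pool.Agent.K6.H10.AV
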