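import Pool.Agent.K6.H10.AV.Stm

/-!
# Piece HUL (helper84): the mean value lies in the convex hull of the values
-/

set_option autoImplicit false

open MeasureTheory

namespace Pool.Agent.K6.H10.AV.HUL

/-- The convex hull of a nonempty compact set of a finite dimensional space is compact. -/
theorem isCompact_hull {E : Type*} [NormedAddCommGroup E] [NormedSpace ℝ E]
    [FiniteDimensional ℝ E] {K : Set E} (hK : IsCompact K) (hne : K.Nonempty) :
    IsCompact (convexHull ℝ K) := by
  classical
  obtain ⟨x0, hx0⟩ := hne
  let d := Module.finrank ℝ E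
  let F : (Fin (d + 1) → ℝ) × (Fin (d + 1) → E) → E := fun p => ∑ i, p.1 i • p.2 i
  have hF : Continuous F := by
    refine continuous_finsetSum _ fun i _ => ?_
    exact ((continuous_apply i).comp continuous_fst).smul
      ((continuous_apply i).comp continuous_snd)
  have hc : IsCompact (F '' (stdSimplex ℝ (Fin (d + 1)) ×ˢ Set.pi Set.univ (fun _ => K))) :=
    ((isCompact_stdSimplex ℝ _).prod (isCompact_univ_pi fun _ => hK)).image hF
  have heq : convexHull ℝ K = F '' (stdSimplex ℝ (Fin (d + 1)) ×ˢ Set.pi Set.univ (fun _ => K)) := by
    apply Set.Subset.antisymm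
    · intro x hx
      obtain ⟨ι, _, z, w, hz, hai, hw, hw1, hx⟩ := eq_pos_convex_span_of_mem_convexHull hx
      have hcard : Fintype.card ι ≤ d + 1 := by
        refine hai.card_le_finrank_succ.trans ?_
        have := Submodule.finrank_le (vectorSpan ℝ (Set.range z))
        omega
      obtain ⟨f⟩ : Nonempty (ι ↪ Fin (d + 1)) :=
        Function.Embedding.nonempty_of_card_le (by simpa using hcard)
      refine ⟨(Function.extend f w 0, Function.extend f z fun _ => x0), ⟨⟨?_, ?_⟩, ?_⟩, ?_⟩
      · intro j
        by_cases h : ∃ i, f i = j
        · obtain ⟨i, rfl⟩ := h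
          show 0 ≤ Function.extend f w 0 (f i)
          rw [f.injective.extend_apply]
          exact (hw i).le
        · show 0 ≤ Function.extend f w 0 j
          rw [Function.extend_apply' _ _ _ h]
          exact le_rfl
      · show ∑ j, Function.extend f w 0 j = 1
        rw [← hw1]
        symm
        refine Finset.sum_of_injOn f f.injective.injOn (fun _ _ => Finset.mem_coe.mpr
          (Finset.mem_univ _)) ?_ ?_
        · intro j _ hj
          refine Function.extend_apply' _ _ _ ?_
          rintro ⟨i, hi⟩
          exact hj ⟨i, Finset.mem_coe.mpr (Finset.mem_univ _), hi⟩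
        · intro i _
          rw [f.injective.extend_apply]
      · intro j _
        show Function.extend f z (fun _ => x0) j ∈ K
        by_cases h : ∃ i, f i = j
        · obtain ⟨i, rfl⟩ := h
          rw [f.injective.extend_apply]
          exact hz ⟨i, rfl⟩
        · rw [Function.extend_apply' _ _ _ h]
          exact hx0
      · show ∑ j, Function.extend f w 0 j • Function.extend f z (fun _ => x0) j = x
        rw [← hx]
        symm
        refine Finset.sum_of_injOn f f.injective.injOn (fun _ _ => Finset.mem_coe.mpr
          (Finset.mem_univ _)) ?_ ?_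
        · intro j _ hj
          have hj' : ¬ ∃ i, f i = j := by
            rintro ⟨i, hi⟩
            exact hj ⟨i, Finset.mem_coe.mpr (Finset.mem_univ _), hi⟩
          have h0 : Function.extend f w 0 j = 0 := Function.extend_apply' _ _ _ hj'
          rw [h0, zero_smul]
        · intro i _
          rw [f.injective.extend_apply, f.injective.extend_apply]
    · rintro _ ⟨⟨w, z⟩, ⟨⟨hw, hw1⟩, hz⟩, rfl⟩
      exact (convex_convexHull ℝ K).sum_mem (fun i _ => hw i) hw1
        fun i _ => subset_convexHull ℝ K (hz i (Set.mem_univ _))
  rw [heq]
  exact hc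

theorem t_HUL : S_HUL := by
  intro X _ _ _ _ _ μ _ E _ _ _ f hf
  have hX : Nonempty X := nonempty_of_isProbabilityMeasure μ
  have hc : IsCompact (Set.range f) := isCompact_range hf
  have h1 := isCompact_hull hc (Set.range_nonempty f)
  have : CompleteSpace E := FiniteDimensional.complete ℝ E
  refine (convex_convexHull ℝ _).integral_mem h1.isClosed
    (Filter.Eventually.of_forall fun x => subset_convexHull ℝ _ ⟨x, rfl⟩) ?_
  exact hf.integrable_of_hasCompactSupport (HasCompactSupport.of_compactSpace f)

end Pool.Agent.K6.H10.AV.HUL
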