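import Pool.Agent.K6.H10.AV.Stm

/-!
MP_2fc7fa_gt, piece QUA of `call10`: the action of the unit quaternions by `SU(2)`.
Written by helper92.
-/

set_option autoImplicit false

open scoped ContDiff Topology Quaternion ComplexConjugate
open MeasureTheory

noncomputable section

namespace Pool.Agent.K6.H10.AV.QUA

open Pool.Agent.K6.H10.AV

def al (q : ℍ) : ℂ := ⟨q.re, q.imI⟩
def be (q : ℍ) : ℂ := ⟨q.imJ, q.imK⟩

def rho (q : ℍ) : (Fin 3 → ℂ) →L[ℝ] (Fin 3 → ℂ) :=
  LinearMap.toContinuousLinearMap
    { toFun := fun z => rt (al q) (be q) z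
      map_add' := by
        intro x y
        funext i
        fin_cases i <;> simp [rt] <;> ring
      map_smul' := by
        intro c x
        funext i
        fin_cases i <;> simp [rt] <;> ring }

theorem rho_apply (q : ℍ) (z : Fin 3 → ℂ) : rho q z = rt (al q) (be q) z := rfl

theorem norm_al_be (q : ℍ) : ‖al q‖ ^ 2 + ‖be q‖ ^ 2 = ‖q‖ ^ 2 := by
  rw [← Complex.normSq_eq_norm_sq, ← Complex.normSq_eq_norm_sq, Complex.normSq_apply,
    Complex.normSq_apply, sq, ← Quaternion.normSq_eq_norm_mul_self, Quaternion.normSq_def']
  simp only [al, be]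
  ring

theorem al_cont : Continuous al := by
  have h : al = fun q : ℍ => (q.re : ℂ) + (q.imI : ℂ) * Complex.I := by
    funext q
    apply Complex.ext <;> simp [al]
  rw [h]
  exact (Complex.continuous_ofReal.comp Quaternion.continuous_re).add
    ((Complex.continuous_ofReal.comp Quaternion.continuous_imI).mul continuous_const)

theorem be_cont : Continuous be := by
  have h : be = fun q : ℍ => (q.imJ : ℂ) + (q.imK : ℂ) * Complex.I := by
    funext q
    apply Complex.ext <;> simp [be]
  rw [h]
  exact (Complex.continuous_ofReal.comp Quaternion.continuous_imJ).add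
    ((Complex.continuous_ofReal.comp Quaternion.continuous_imK).mul continuous_const)

theorem rho_cont : Continuous rho := by
  rw [continuous_clm_apply]
  intro z
  have ha := al_cont
  have hb := be_cont
  refine continuous_pi fun i => ?_
  fin_cases i
  · exact continuous_const
  · change Continuous (fun q => al q * z 1 - conj (be q) * z 2)
    exact (ha.mul continuous_const).sub ((Complex.continuous_conj.comp hb).mul continuous_const)
  · change Continuous (fun q => be q * z 1 + conj (al q) * z 2)
    exact (hb.mul continuous_const).add ((Complex.continuous_conj.comp ha).mul continuous_const)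

theorem t_QUA : S_QUA := by
  refine ⟨fun g => rho g.1, rho_cont.comp continuous_subtype_val, ?_, ?_, ?_⟩
  · intro g h z
    simp only [rho_apply]
    have e1 : al ((g * h : Metric.sphere (0 : ℍ) 1) : ℍ) =
        al g.1 * al h.1 - be g.1 * conj (be h.1) := by
      apply Complex.ext <;> simp [al, be] <;> ring
    have e2 : be ((g * h : Metric.sphere (0 : ℍ) 1) : ℍ) =
        al g.1 * be h.1 + be g.1 * conj (al h.1) := by
      apply Complex.ext <;> simp [al, be] <;> ring
    rw [e1, e2]
    funext i
    fin_cases i
    · simp [rt]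
    · simp [rt]
      ring
    · simp [rt]
      ring
  · intro g
    refine ⟨al g.1, be g.1, ?_, fun z => rfl⟩
    rw [norm_al_be]
    have := g.2
    rw [mem_sphere_zero_iff_norm] at this
    rw [this, one_pow]
  · intro α β h
    obtain ⟨q, hq⟩ : ∃ q : ℍ, q = ⟨α.re, α.im, β.re, β.im⟩ := ⟨_, rfl⟩
    have h2 : al q = α := by rw [hq]; rfl
    have h3 : be q = β := by rw [hq]; rfl
    refine ⟨⟨q, ?_⟩, ?_⟩
    · rw [mem_sphere_zero_iff_norm]
      have h1 := norm_al_be q
      rw [h2, h3, h] at h1
      have h4 := norm_nonneg q
      have h5 : (‖q‖ - 1) * (‖q‖ + 1) = 0 := by linear_combination -h1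
      rcases mul_eq_zero.1 h5 with h6 | h6
      · linarith
      · linarith
    · intro z
      change rt (al q) (be q) z = rt α β z
      rw [h2, h3]

end Pool.Agent.K6.H10.AV.QUA
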