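import Pool.Agent.K6.H10.AV.Cty
import Pool.Agent.K6.H10.AV.HUL
import Pool.Agent.K6.H10.AV.QUA

/-!
# Forms all convex combinations of whose translates are symplectic
-/

set_option autoImplicit false

open scoped ContDiff Topology ComplexConjugate Quaternion unitInterval
open MeasureTheory

noncomputable section

namespace Pool.Agent.K6.H10.AV

open Pool.Agent.K6.H10.SY
open Pool.Agent.K6.H10.SU

/-- the pull-backs of a two-form by the elements of `SU(2)` -/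
def orbit (Ω : V → Bil) : Set (V → Bil) :=
  {η | ∃ α β : ℂ, ‖α‖ ^ 2 + ‖β‖ ^ 2 = 1 ∧
    ∀ z v w, η z v w = Ω (rot α β z) (rot α β v) (rot α β w)}

/-- all convex combinations of the pull-backs are nondegenerate -/
def ConvNondeg (Ω : V → Bil) : Prop := ∀ η ∈ convexHull ℝ (orbit Ω), Nondeg η

theorem rot_one (z : V) : rot 1 0 z = z := by
  funext i
  fin_cases i <;> simp [rot]

theorem self_mem (Ω : V → Bil) : Ω ∈ orbit Ω :=
  ⟨1, 0, by simp, fun z v w => by rw [rot_one, rot_one, rot_one]⟩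

theorem ConvNondeg.nondeg {Ω : V → Bil} (h : ConvNondeg Ω) : Nondeg Ω :=
  h Ω (subset_convexHull ℝ _ (self_mem Ω))

theorem SUInv.convNondeg {Ω : V → Bil} (h : SUInv Ω) (hn : Nondeg Ω) : ConvNondeg Ω := by
  have h1 : orbit Ω = {Ω} := by
    ext η
    constructor
    · rintro ⟨α, β, h2, h3⟩
      show η = Ω
      funext z
      ext v w
      rw [h3, h α β h2]
    · rintro rfl
      exact self_mem η
  intro η hη
  rw [h1, convexHull_singleton] at hη
  rw [hη]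
  exact hn

/-- the evaluation at `z`, `v` -/
def ev (z v : V) : (V → Bil) →ₗ[ℝ] Lin where
  toFun η := η z v
  map_add' _ _ := rfl
  map_smul' _ _ := rfl

section

variable {X : Type} [Group X] [TopologicalSpace X] {ρ : X → V →L[ℝ] V} (D : Dat ρ)

/-- the values of the pull-backs on `z`, `v` -/
def qx (ρ : X → V →L[ℝ] V) (Ω : V → Bil) (z v : V) (x : X) : Lin := pl (ρ x) (Ω (ρ x z) (ρ x v))

include D in
theorem zero_notMem {Ω : V → Bil} (h : ConvNondeg Ω) {z : V} (hz : z ≠ 0) {v : V}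
    (hv : ¬ ∃ c : ℂ, v = c • z) : (0 : Lin) ∉ convexHull ℝ (Set.range (qx ρ Ω z v)) := by
  intro h0
  have h1 : Set.range (qx ρ Ω z v) ⊆ ev z v '' orbit Ω := by
    rintro _ ⟨x, rfl⟩
    obtain ⟨α, β, h2, h3⟩ := D.su x
    refine ⟨fun y => qb (ρ x) (pl (ρ x)) (Ω (ρ x y)), ⟨α, β, h2, fun y v w => ?_⟩, rfl⟩
    rw [← h3, ← h3, ← h3]
    rfl
  have h2 := convexHull_mono h1 h0
  rw [← LinearMap.image_convexHull] at h2
  obtain ⟨η, hη, h3⟩ := h2
  refine hv (h η hη z hz v fun w => ?_)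
  have h4 : η z v = 0 := h3
  rw [h4]
  rfl

variable [CompactSpace X] [SecondCountableTopology X] [MeasurableSpace X] [BorelSpace X]
  [IsTopologicalGroup X] (μ : Measure X) [IsProbabilityMeasure μ] [μ.IsMulLeftInvariant]

include D in
omit [IsTopologicalGroup X] [μ.IsMulLeftInvariant] in
theorem mean_mem {Ω : V → Bil} (hF : IsForm Ω) {z : V} (hz : z ≠ 0) (v : V) :
    mean2 μ ρ Ω z v ∈ convexHull ℝ (Set.range (qx ρ Ω z v)) := by
  have h1 : mean2 μ ρ Ω z v = ∫ x, qx ρ Ω z v x ∂μ :=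
    mq_apply μ D.cont D.pl D.map hF.smooth.continuousOn hz v
  rw [h1]
  exact HUL.t_HUL X μ Lin (qx ρ Ω z v)
    (cont_qb' D.cont D.pl D.map hF.smooth.continuousOn hz v)

include D in
theorem convNondeg_seg {Ω : V → Bil} (hF : IsForm Ω) (h : ConvNondeg Ω) {a b : ℝ} (ha : 0 ≤ a)
    (hb : 0 ≤ b) (hab : a + b = 1) : ConvNondeg (a • Ω + b • mean2 μ ρ Ω) := by
  intro η hη z hz v hv
  by_contra hc
  have h1 : orbit (a • Ω + b • mean2 μ ρ Ω) ⊆
      ev z v ⁻¹' convexHull ℝ (Set.range (qx ρ Ω z v)) := by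
    rintro η' ⟨α, β, h2, h3⟩
    obtain ⟨x, hx⟩ := D.sur α β h2
    have h4 : η' z v = a • qx ρ Ω z v x + b • mean2 μ ρ Ω z v := by
      ext w
      rw [h3]
      show a * Ω (rot α β z) (rot α β v) (rot α β w) +
        b * mean2 μ ρ Ω (rot α β z) (rot α β v) (rot α β w) =
        a * Ω (ρ x z) (ρ x v) (ρ x w) + b * mean2 μ ρ Ω z v w
      rw [inv_mean2 D μ hF α β h2, hx, hx, hx]
    show η' z v ∈ convexHull ℝ (Set.range (qx ρ Ω z v))
    rw [h4]
    exact convex_convexHull ℝ _ (subset_convexHull ℝ _ (Set.mem_range_self x)) (mean_mem D μ hF hz v) ha hb hab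
  have h2 : η ∈ ev z v ⁻¹' convexHull ℝ (Set.range (qx ρ Ω z v)) :=
    convexHull_min h1 ((convex_convexHull ℝ _).linear_preimage _) hη
  have h3 : η z v = 0 := by
    ext w
    exact hv w
  have h4 : η z v ∈ convexHull ℝ (Set.range (qx ρ Ω z v)) := h2
  rw [h3] at h4
  exact zero_notMem D h hz hc h4

/-- the theorem, for a group which acts by `SU(2)` -/
theorem main (D : Dat ρ) (μ : Measure X) [IsProbabilityMeasure μ] [μ.IsMulLeftInvariant]
    {C : Set (V → Bil)} (hC : Convex ℝ C)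
    (h : ∀ Ω, IsForm Ω → InClass Ω → SUInv Ω → Ω ∈ C) :
    ContractibleSpace {Ω : Forms | Ω ∈ S ∧ Ω.val ∈ C ∧ ConvNondeg Ω.val} := by
  set U : Set Forms := {Ω : Forms | Ω ∈ S ∧ Ω.val ∈ C ∧ ConvNondeg Ω.val} with hU
  have hseg : ∀ Ω ∈ U, ∀ a b : ℝ, 0 ≤ a → 0 ≤ b → a + b = 1 → comb a b Ω (meanF μ D Ω) ∈ U := by
    intro Ω hΩ a b ha hb hab
    have h1 : ConvNondeg (comb a b Ω (meanF μ D Ω)).val :=
      convNondeg_seg D μ Ω.property hΩ.2.2 ha hb hab
    have h2 : InClass (meanF μ D Ω).val := inClass_mean2 D μ Ω.property hΩ.1.2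
    exact ⟨⟨h1.nondeg, hΩ.1.2.comb h2 hab⟩,
      hC hΩ.2.1 (h _ (meanF μ D Ω).property h2 (inv_mean2 D μ Ω.property)) ha hb hab, h1⟩
  have hmU : ∀ Ω ∈ U, meanF μ D Ω ∈ U := by
    intro Ω hΩ
    have h1 := hseg Ω hΩ 0 1 le_rfl zero_le_one (by ring)
    rwa [comb_right rfl rfl] at h1
  have hSI : ∀ Ω : Forms, Ω ∈ S ∧ SUInv Ω.val → Ω ∈ U := fun Ω hΩ =>
    ⟨hΩ.1, h _ Ω.property hΩ.1.2 hΩ.2, SUInv.convNondeg hΩ.2 hΩ.1.1⟩
  have hc := contractible_SUInv
  rw [contractible_iff_id_nullhomotopic] at hc ⊢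
  let SI : Set Forms := {Ω : Forms | Ω ∈ S ∧ SUInv Ω.val}
  let r : C(U, SI) := ⟨fun Ω => ⟨meanF μ D Ω.1, (hmU Ω.1 Ω.2).1, inv_mean2 D μ Ω.1.property⟩,
    ((continuous_meanF D μ).comp continuous_subtype_val).subtype_mk _⟩
  let ι : C(SI, U) := ⟨fun Ω => ⟨Ω.1, hSI Ω.1 Ω.2⟩, continuous_subtype_val.subtype_mk _⟩
  have hF : (ι.comp ((ContinuousMap.id SI).comp r)).Nullhomotopic := (hc.comp_left r).comp_right ι
  have hp : Continuous fun p : I × U => (p.1 : ℝ) := continuous_subtype_val.comp continuous_fst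
  have hc1 : Continuous fun p : I × U => comb (1 - p.1) p.1 p.2.1 (meanF μ D p.2.1) :=
    continuous_comb (continuous_const.sub hp) hp (continuous_subtype_val.comp continuous_snd)
      ((continuous_meanF D μ).comp (continuous_subtype_val.comp continuous_snd))
  let H1 : ContinuousMap.Homotopy (ContinuousMap.id U) (ι.comp ((ContinuousMap.id SI).comp r)) :=
    { toFun := fun p => ⟨comb (1 - p.1) p.1 p.2.1 (meanF μ D p.2.1),
        hseg p.2.1 p.2.2 _ _ (by linarith [p.1.2.2]) p.1.2.1 (by ring)⟩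
      continuous_toFun := hc1.subtype_mk _
      map_zero_left := fun Ω => Subtype.ext (comb_left (by simp) (by simp) _ _)
      map_one_left := fun Ω => Subtype.ext (comb_right (by simp) (by simp) _ _) }
  obtain ⟨y, hy⟩ := hF
  exact ⟨y, ContinuousMap.Homotopic.trans ⟨H1⟩ hy⟩

end

/-- the theorem -/
theorem contractible_conv {C : Set (V → Bil)} (hC : Convex ℝ C)
    (h : ∀ Ω, IsForm Ω → InClass Ω → SUInv Ω → Ω ∈ C) :
    ContractibleSpace {Ω : Forms | Ω ∈ S ∧ Ω.val ∈ C ∧ ConvNondeg Ω.val} := by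
  obtain ⟨ρ, h1, h2, h3, h4⟩ := QUA.t_QUA
  let _ : MeasurableSpace (Metric.sphere (0 : ℍ) 1) := borel _
  have : BorelSpace (Metric.sphere (0 : ℍ) 1) := ⟨rfl⟩
  let μ : Measure (Metric.sphere (0 : ℍ) 1) := Measure.haarMeasure ⊤
  have : IsProbabilityMeasure μ := ⟨Measure.haarMeasure_self (K₀ := ⊤)⟩
  exact main (ρ := ρ) ⟨h1, h2, h3, h4⟩ μ hC h

end Pool.Agent.K6.H10.AV
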