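import Pool.Agent.K6.H10.AV.Op

/-!
# Averages of linear and bilinear forms
-/

set_option autoImplicit false

open scoped ContDiff Topology
open MeasureTheory

noncomputable section

namespace Pool.Agent.K6.H10.AV

section

variable {X : Type} [TopologicalSpace X] [CompactSpace X]
  [MeasurableSpace X] [BorelSpace X] (μ : Measure X) [IsFiniteMeasure μ]
  {W N : Type} [NormedAddCommGroup W] [NormedSpace ℝ W] [NormedAddCommGroup N] [NormedSpace ℝ N]

/-- the pull-back of linear forms -/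
def pl (g : W →L[ℝ] W) : (W →L[ℝ] ℝ) →L[ℝ] (W →L[ℝ] ℝ) :=
  (ContinuousLinearMap.compL ℝ W W ℝ).flip g

/-- `a ↦ p ∘ a ∘ g` -/
def qb (g : W →L[ℝ] W) (p : N →L[ℝ] N) : (W →L[ℝ] N) →L[ℝ] (W →L[ℝ] N) :=
  (ContinuousLinearMap.compL ℝ W N N p).comp ((ContinuousLinearMap.compL ℝ W W N).flip g)

theorem pl_apply (g : W →L[ℝ] W) (a : W →L[ℝ] ℝ) (v : W) : pl g a v = a (g v) := rfl

theorem qb_apply (g : W →L[ℝ] W) (p : N →L[ℝ] N) (a : W →L[ℝ] N) (v : W) :
    qb g p a v = p (a (g v)) := rfl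

theorem continuous_pl : Continuous (pl (W := W)) :=
  (ContinuousLinearMap.compL ℝ W W ℝ).flip.continuous

theorem continuous_qb : Continuous fun q : (W →L[ℝ] W) × (N →L[ℝ] N) => qb q.1 q.2 :=
  ((ContinuousLinearMap.compL ℝ W N N).continuous.comp continuous_snd).clm_comp
    ((ContinuousLinearMap.compL ℝ W W N).flip.continuous.comp continuous_fst)

/-- continuous functions are integrable -/
theorem intg {E : Type} [NormedAddCommGroup E] {f : X → E}
    (hf : Continuous f) : Integrable f μ :=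
  hf.integrable_of_hasCompactSupport (HasCompactSupport.of_compactSpace _)

/-- the average -/
def mq (ρ : X → W →L[ℝ] W) (p : X → N →L[ℝ] N) (u : W → W →L[ℝ] N) (z : W) : W →L[ℝ] N :=
  ∫ x, qb (ρ x) (p x) (u (ρ x z)) ∂μ

variable {ρ : X → W →L[ℝ] W} (hρ : Continuous ρ) {p : X → N →L[ℝ] N} (hp : Continuous p)
  {U : Set W} (hmap : ∀ x, ∀ z ∈ U, ρ x z ∈ U)

include hρ hp hmap in
omit [CompactSpace X] [MeasurableSpace X] [BorelSpace X] in
theorem cont_qb {u : W → W →L[ℝ] N} (h : ContinuousOn u U) {z : W} (hz : z ∈ U) :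
    Continuous fun x => qb (ρ x) (p x) (u (ρ x z)) :=
  (continuous_qb.comp (hρ.prodMk hp)).clm_apply
    (h.comp_continuous (hρ.clm_apply continuous_const) fun x => hmap x z hz)

include hρ hp hmap in
omit [CompactSpace X] [MeasurableSpace X] [BorelSpace X] in
theorem cont_qb' {u : W → W →L[ℝ] N} (h : ContinuousOn u U) {z : W} (hz : z ∈ U) (v : W) :
    Continuous fun x => p x (u (ρ x z) (ρ x v)) :=
  (cont_qb hρ hp hmap h hz).clm_apply continuous_const

include hρ hp hmap in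
theorem mq_apply {u : W → W →L[ℝ] N} (h : ContinuousOn u U) {z : W}
    (hz : z ∈ U) (v : W) : mq μ ρ p u z v = ∫ x, p x (u (ρ x z) (ρ x v)) ∂μ := by
  have h1 := intg μ (cont_qb hρ hp hmap h hz)
  show (∫ x, qb (ρ x) (p x) (u (ρ x z)) ∂μ) v = _
  rw [ContinuousLinearMap.integral_apply h1]
  rfl

variable [SecondCountableTopology X] [ProperSpace W] [CompleteSpace N] (hU : IsOpen U)

include hρ hp hmap hU in
theorem mq_smooth (h0 : S_TAY) {u : W → W →L[ℝ] N} (h : ContDiffOn ℝ ∞ u U) :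
    ContDiffOn ℝ ∞ (mq μ ρ p u) U :=
  smooth_mm μ hρ (L := fun x => qb (ρ x) (p x)) (continuous_qb.comp (hρ.prodMk hp)) hU hmap h0 h

include hρ hp hmap hU in
omit [CompactSpace X] [MeasurableSpace X] [BorelSpace X] [SecondCountableTopology X]
  [ProperSpace W] [CompleteSpace N] in
theorem cont_fd {u : W → W →L[ℝ] N} (h : ContDiffOn ℝ ∞ u U) {z : W} (hz : z ∈ U) (v w : W) :
    Continuous fun x => p x (fderiv ℝ u (ρ x z) (ρ x v) (ρ x w)) := by
  have hc : Continuous fun x => fderiv ℝ u (ρ x z) :=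
    (h.continuousOn_fderiv_of_isOpen hU (by simp)).comp_continuous
      (hρ.clm_apply continuous_const) fun x => hmap x z hz
  exact hp.clm_apply
    ((hc.clm_apply (hρ.clm_apply continuous_const)).clm_apply (hρ.clm_apply continuous_const))

include hρ hp hmap hU in
theorem mq_fderiv (h0 : S_TAY) {u : W → W →L[ℝ] N} (h : ContDiffOn ℝ ∞ u U) {z : W}
    (hz : z ∈ U) (v w : W) : fderiv ℝ (mq μ ρ p u) z v w =
      ∫ x, p x (fderiv ℝ u (ρ x z) (ρ x v) (ρ x w)) ∂μ := by
  have h2 := fderiv_mm μ hρ (L := fun x => qb (ρ x) (p x)) (continuous_qb.comp (hρ.prodMk hp))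
    hU hmap h0 h hz v
  have hc : Continuous fun x => fderiv ℝ u (ρ x z) :=
    (h.continuousOn_fderiv_of_isOpen hU (by simp)).comp_continuous
      (hρ.clm_apply continuous_const) fun x => hmap x z hz
  have h3 : Integrable (fun x => qb (ρ x) (p x) (fderiv ℝ u (ρ x z) (ρ x v))) μ :=
    intg μ ((continuous_qb.comp (hρ.prodMk hp)).clm_apply
      (hc.clm_apply (hρ.clm_apply continuous_const)))
  have h4 : fderiv ℝ (mq μ ρ p u) z v = ∫ x, qb (ρ x) (p x) (fderiv ℝ u (ρ x z) (ρ x v)) ∂μ := h2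
  rw [h4, ContinuousLinearMap.integral_apply h3]
  rfl

end

end Pool.Agent.K6.H10.AV
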