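import Pool.Agent.K6.H10.AV.Stm

/-!
MP_2fc7fa_gt, piece TAY of `call10`: integrals over a compact space have Taylor series.
Written by helper92.
-/

set_option autoImplicit false

open scoped ContDiff Topology Quaternion ComplexConjugate
open MeasureTheory

noncomputable section

namespace Pool.Agent.K6.H10.AV.TAY

open Pool.Agent.K6.H10.AV

section general

variable {X : Type} [TopologicalSpace X] [CompactSpace X] [SecondCountableTopology X]
    [MeasurableSpace X] [BorelSpace X] (μ : Measure X) [IsFiniteMeasure μ]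
    {E G A : Type} [NormedAddCommGroup E] [NormedSpace ℝ E] [ProperSpace E]
    [NormedAddCommGroup G] [NormedSpace ℝ G] [CompleteSpace G]
    [NormedAddCommGroup A] [NormedSpace ℝ A] [CompleteSpace A]

omit [CompactSpace X] [SecondCountableTopology X] [MeasurableSpace X] [BorelSpace X]
  [NormedSpace ℝ E] [ProperSpace E] [NormedSpace ℝ G] [CompleteSpace G] in
theorem slice_cont {U : Set E} {P : X → E → G}
    (hP : ContinuousOn (fun q : X × E => P q.1 q.2) (Set.univ ×ˢ U)) {z : E} (hz : z ∈ U) :
    Continuous (fun x => P x z) := by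
  rw [← continuousOn_univ]
  have h1 : ContinuousOn (fun x : X => (x, z)) Set.univ := by fun_prop
  exact hP.comp h1 (fun x _ => ⟨trivial, hz⟩)

theorem slice_int {U : Set E} {P : X → E → G}
    (hP : ContinuousOn (fun q : X × E => P q.1 q.2) (Set.univ ×ˢ U)) {z : E} (hz : z ∈ U) :
    Integrable (fun x => P x z) μ := by
  obtain ⟨C, hC⟩ := (isCompact_univ (X := X)).exists_bound_of_continuousOn
    ((slice_cont hP hz).continuousOn (s := Set.univ))
  exact Integrable.of_bound (slice_cont hP hz).aestronglyMeasurable C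
    (Filter.Eventually.of_forall fun x => hC x trivial)

/-- differentiation under the integral sign -/
theorem deriv_int {U : Set E} (hU : IsOpen U) {P : X → E → G} {Q : X → E → A}
    (hP : ContinuousOn (fun q : X × E => P q.1 q.2) (Set.univ ×ˢ U))
    (hQ : ContinuousOn (fun q : X × E => Q q.1 q.2) (Set.univ ×ˢ U))
    (L : A →L[ℝ] (E →L[ℝ] G))
    (hd : ∀ x, ∀ w ∈ U, HasFDerivAt (P x) (L (Q x w)) w) {z : E} (hz : z ∈ U) :
    HasFDerivAt (fun w => ∫ x, P x w ∂μ) (L (∫ x, Q x z ∂μ)) z := by
  obtain ⟨r, hr, hrU⟩ := Metric.isOpen_iff.1 hU z hz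
  have hK : Metric.closedBall z (r / 2) ⊆ U :=
    (Metric.closedBall_subset_ball (by linarith)).trans hrU
  have hcomp : IsCompact ((Set.univ : Set X) ×ˢ Metric.closedBall z (r / 2)) :=
    isCompact_univ.prod (isCompact_closedBall z (r / 2))
  obtain ⟨C, hC⟩ := hcomp.exists_bound_of_continuousOn (hQ.mono (Set.prod_mono_right hK))
  have h := hasFDerivAt_integral_of_dominated_of_fderiv_le (μ := μ)
    (F := fun w x => P x w) (F' := fun w x => L (Q x w)) (x₀ := z)
    (s := Metric.ball z (r / 2)) (bound := fun _ => ‖L‖ * C)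
    (Metric.ball_mem_nhds z (by linarith))
    (by
      filter_upwards [hU.mem_nhds hz] with w hw
      exact (slice_cont hP hw).aestronglyMeasurable)
    (slice_int μ hP hz) (L.integrable_comp (slice_int μ hQ hz)).aestronglyMeasurable
    (Filter.Eventually.of_forall fun x w hw => by
      have := hC (x, w) ⟨trivial, Metric.ball_subset_closedBall hw⟩
      exact (L.le_opNorm _).trans (mul_le_mul_of_nonneg_left this (norm_nonneg _)))
    (integrable_const _)
    (Filter.Eventually.of_forall fun x w hw => hd x w (hK (Metric.ball_subset_closedBall hw)))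
  rw [L.integral_comp_comm (slice_int μ hQ hz)] at h
  exact h

theorem lin_int {U : Set E} {Q : X → E → A}
    (hQ : ContinuousOn (fun q : X × E => Q q.1 q.2) (Set.univ ×ˢ U))
    (L : A →L[ℝ] G) {z : E} (hz : z ∈ U) :
    L (∫ x, Q x z ∂μ) = ∫ x, L (Q x z) ∂μ :=
  (L.integral_comp_comm (slice_int μ hQ hz)).symm

end general

/-- currying as a continuous linear map -/
def cl (E F : Type) [NormedAddCommGroup E] [NormedSpace ℝ E] [NormedAddCommGroup F]
    [NormedSpace ℝ F] (m : ℕ) :
    (E [×m.succ]→L[ℝ] F) →L[ℝ] (E →L[ℝ] (E [×m]→L[ℝ] F)) :=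
  (continuousMultilinearCurryLeftEquiv ℝ (fun _ : Fin m.succ => E)
    F).toContinuousLinearEquiv.toContinuousLinearMap

theorem t_TAY : S_TAY := by
  intro X _ _ _ _ _ μ _ E F _ _ _ _ _ _ U hU f p hp hc
  have key : ∀ (m : ℕ) (z : E), z ∈ U →
      HasFDerivAt (fun w => ∫ x, p x w m ∂μ) ((∫ x, p x z m.succ ∂μ).curryLeft) z := by
    intro m z hz
    have hder : ∀ x : X, ∀ w ∈ U, HasFDerivAt (fun w => p x w m) (cl E F m (p x w m.succ)) w := by
      intro x w hw
      exact ((hp x).fderivWithin m (by exact_mod_cast WithTop.coe_lt_top _) w hw).hasFDerivAt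
        (hU.mem_nhds hw)
    exact deriv_int μ hU (hc m) (hc m.succ) (cl E F m) hder hz
  refine ⟨?_, ?_, ?_⟩
  · intro z hz
    have h1 : (fun x => f x z) = fun x => (p x z 0).curry0 := by
      funext x
      exact ((hp x).zero_eq z hz).symm
    rw [h1]
    exact lin_int μ (Q := fun x z => p x z 0) (hc 0) ((continuousMultilinearCurryFin0 ℝ E
      F).toContinuousLinearEquiv.toContinuousLinearMap) hz
  · intro m _ z hz
    exact (key m z hz).hasFDerivWithinAt
  · intro m _ z hz
    exact (key m z hz).continuousAt.continuousWithinAt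

end Pool.Agent.K6.H10.AV.TAY
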