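import Pool.Agent.K6.H10.AV.Stm

/-!
# Averages of smooth maps over a compact space of linear maps
-/

set_option autoImplicit false

open scoped ContDiff Topology
open MeasureTheory

noncomputable section

namespace Pool.Agent.K6.H10.AV

section

variable {X : Type} [TopologicalSpace X] [CompactSpace X] [SecondCountableTopology X]
  [MeasurableSpace X] [BorelSpace X] (μ : Measure X) [IsFiniteMeasure μ]
  {V E F : Type} [NormedAddCommGroup V] [NormedSpace ℝ V] [ProperSpace V]
  [NormedAddCommGroup E] [NormedSpace ℝ E] [NormedAddCommGroup F] [NormedSpace ℝ F]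

/-- the average of `L x (u (ρ x z))` -/
def mm (ρ : X → V →L[ℝ] V) (L : X → E →L[ℝ] F) (u : V → E) (z : V) : F :=
  ∫ x, L x (u (ρ x z)) ∂μ

/-- the linear map on the derivatives -/
def tt (m : ℕ) (L : E →L[ℝ] F) (g : V →L[ℝ] V) : (V [×m]→L[ℝ] E) →L[ℝ] (V [×m]→L[ℝ] F) :=
  (ContinuousLinearMap.compContinuousMultilinearMapL ℝ (fun _ : Fin m => V) E F L).comp
    (ContinuousMultilinearMap.compContinuousLinearMapL (fun _ : Fin m => g))

omit [ProperSpace V] in
theorem tt_apply (m : ℕ) (L : E →L[ℝ] F) (g : V →L[ℝ] V) (M : V [×m]→L[ℝ] E) :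
    tt m L g M = L.compContinuousMultilinearMap (M.compContinuousLinearMap fun _ => g) := rfl

omit [ProperSpace V] in
theorem continuous_tt (m : ℕ) : Continuous fun q : (E →L[ℝ] F) × (V →L[ℝ] V) => tt m q.1 q.2 := by
  have h1 : Continuous fun q : (E →L[ℝ] F) × (V →L[ℝ] V) =>
      ContinuousLinearMap.compContinuousMultilinearMapL ℝ (fun _ : Fin m => V) E F q.1 :=
    (ContinuousLinearMap.continuous _).comp continuous_fst
  have h2 : Continuous fun q : (E →L[ℝ] F) × (V →L[ℝ] V) =>
      ContinuousMultilinearMap.compContinuousLinearMapContinuousMultilinear ℝ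
        (fun _ : Fin m => V) (fun _ : Fin m => V) E (fun _ : Fin m => q.2) :=
    (ContinuousMultilinearMap.cont _).comp (continuous_pi fun _ => continuous_snd)
  exact h1.clm_comp h2

variable {ρ : X → V →L[ℝ] V} (hρ : Continuous ρ) {L : X → E →L[ℝ] F} (hL : Continuous L)
  {U : Set V} (hU : IsOpen U) (hmap : ∀ x, ∀ z ∈ U, ρ x z ∈ U)

include hρ hL hU hmap in
theorem taylor_mm (h0 : S_TAY) [CompleteSpace F] {u : V → E} (hu : ContDiffOn ℝ ∞ u U) :
    HasFTaylorSeriesUpToOn ∞ (mm μ ρ L u)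
      (fun z m => ∫ x, tt m (L x) (ρ x) (iteratedFDerivWithin ℝ m u U (ρ x z)) ∂μ) U := by
  have h1 : HasFTaylorSeriesUpToOn ∞ u (ftaylorSeriesWithin ℝ u U) U :=
    hu.ftaylorSeriesWithin hU.uniqueDiffOn
  refine h0 X μ V F U hU (fun x z => L x (u (ρ x z)))
    (fun x z m => tt m (L x) (ρ x) (iteratedFDerivWithin ℝ m u U (ρ x z))) (fun x => ?_)
    (fun m => ?_)
  · have h2 := (h1.compContinuousLinearMap (ρ x)).continuousLinearMap_comp (L x)
    exact h2.mono fun z hz => hmap x z hz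
  · have h2 : ContinuousOn (fun q : X × V => iteratedFDerivWithin ℝ m u U (ρ q.1 q.2))
        (Set.univ ×ˢ U) := by
      have h3 := hu.continuousOn_iteratedFDerivWithin (m := m) (by exact_mod_cast le_top)
        hU.uniqueDiffOn
      refine h3.comp (f := fun q : X × V => ρ q.1 q.2) ?_ fun q hq => hmap q.1 q.2 hq.2
      exact ((hρ.comp continuous_fst).clm_apply continuous_snd).continuousOn
    have h4 : Continuous fun q : X × V => tt (E := E) (F := F) m (L q.1) (ρ q.1) :=
      (continuous_tt m).comp ((hL.comp continuous_fst).prodMk (hρ.comp continuous_fst))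
    exact h4.continuousOn.clm_apply h2

include hρ hL hU hmap in
theorem smooth_mm (h0 : S_TAY) [CompleteSpace F] {u : V → E} (hu : ContDiffOn ℝ ∞ u U) :
    ContDiffOn ℝ ∞ (mm μ ρ L u) U :=
  (taylor_mm μ hρ hL hU hmap h0 hu).contDiffOn

include hρ hL hU hmap in
theorem iter_mm (h0 : S_TAY) [CompleteSpace F] {u : V → E} (hu : ContDiffOn ℝ ∞ u U) (m : ℕ)
    {z : V} (hz : z ∈ U) : iteratedFDeriv ℝ m (mm μ ρ L u) z =
      ∫ x, tt m (L x) (ρ x) (iteratedFDeriv ℝ m u (ρ x z)) ∂μ := by
  have h1 := (taylor_mm μ hρ hL hU hmap h0 hu).eq_iteratedFDerivWithin_of_uniqueDiffOn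
    (m := m) (by exact_mod_cast le_top) hU.uniqueDiffOn hz
  rw [iteratedFDerivWithin_of_isOpen m hU hz] at h1
  rw [← h1]
  refine integral_congr_ae (Filter.Eventually.of_forall fun x => ?_)
  show tt m (L x) (ρ x) (iteratedFDerivWithin ℝ m u U (ρ x z)) = _
  rw [iteratedFDerivWithin_of_isOpen m hU (hmap x z hz)]

include hρ hL hU hmap in
omit [SecondCountableTopology X] [ProperSpace V] [MeasurableSpace X] [BorelSpace X] in
theorem continuous_int {u : V → E} (hu : ContDiffOn ℝ ∞ u U) (m : ℕ) {z : V} (hz : z ∈ U) :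
    Continuous fun x => tt m (L x) (ρ x) (iteratedFDeriv ℝ m u (ρ x z)) := by
  have h1 : Continuous fun x : X => tt (E := E) (F := F) m (L x) (ρ x) :=
    (continuous_tt m).comp (hL.prodMk hρ)
  have h3 := hu.continuousOn_iteratedFDerivWithin (m := m) (by exact_mod_cast le_top)
    hU.uniqueDiffOn
  have h4 : ContinuousOn (iteratedFDeriv ℝ m u) U :=
    h3.congr fun y hy => (iteratedFDerivWithin_of_isOpen m hU hy).symm
  exact h1.clm_apply (h4.comp_continuous (hρ.clm_apply continuous_const) fun x => hmap x z hz)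

include hρ hL hU hmap in
theorem fderiv_mm (h0 : S_TAY) [CompleteSpace F] {u : V → E} (hu : ContDiffOn ℝ ∞ u U)
    {z : V} (hz : z ∈ U) (v : V) : fderiv ℝ (mm μ ρ L u) z v =
      ∫ x, L x (fderiv ℝ u (ρ x z) (ρ x v)) ∂μ := by
  have h1 := iter_mm μ hρ hL hU hmap h0 hu 1 hz
  have h2 : iteratedFDeriv ℝ 1 (mm μ ρ L u) z (fun _ => v) = fderiv ℝ (mm μ ρ L u) z v :=
    iteratedFDeriv_one_apply _
  rw [← h2, h1]
  have h3 : Integrable (fun x => tt 1 (L x) (ρ x) (iteratedFDeriv ℝ 1 u (ρ x z))) μ :=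
    (continuous_int hρ hL hU hmap hu 1 hz).integrable_of_hasCompactSupport
      (HasCompactSupport.of_compactSpace _)
  have h4 := (ContinuousMultilinearMap.apply ℝ (fun _ : Fin 1 => V) F
    (fun _ => v)).integral_comp_comm h3
  rw [ContinuousMultilinearMap.apply_apply] at h4
  rw [← h4]
  refine integral_congr_ae (Filter.Eventually.of_forall fun x => ?_)
  show L x (iteratedFDeriv ℝ 1 u (ρ x z) fun _ => ρ x v) = _
  rw [iteratedFDeriv_one_apply]

end

end Pool.Agent.K6.H10.AV
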