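import Mathlib

/-!
# Averages over compact groups: statements of the pieces
-/

set_option autoImplicit false

open scoped ContDiff Topology Quaternion ComplexConjugate
open MeasureTheory

noncomputable section

namespace Pool.Agent.K6.H10.AV

/-- TAY: integrals with parameters have Taylor series -/
def S_TAY : Prop := ∀ (X : Type) [TopologicalSpace X] [CompactSpace X] [SecondCountableTopology X]
    [MeasurableSpace X] [BorelSpace X] (μ : Measure X) [IsFiniteMeasure μ]
    (E F : Type) [NormedAddCommGroup E] [NormedSpace ℝ E] [ProperSpace E]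
    [NormedAddCommGroup F] [NormedSpace ℝ F] [CompleteSpace F] (U : Set E), IsOpen U →
    ∀ (f : X → E → F) (p : X → E → FormalMultilinearSeries ℝ E F),
    (∀ x, HasFTaylorSeriesUpToOn ∞ (f x) (p x) U) →
    (∀ m, ContinuousOn (fun q : X × E => p q.1 q.2 m) (Set.univ ×ˢ U)) →
    HasFTaylorSeriesUpToOn ∞ (fun z => ∫ x, f x z ∂μ) (fun z m => ∫ x, p x z m ∂μ) U

/-- OPC: integral operators on spaces of continuous maps -/
def S_OPC : Prop := ∀ (X : Type) [TopologicalSpace X] [CompactSpace X] [SecondCountableTopology X]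
    [MeasurableSpace X] [BorelSpace X] (μ : Measure X) [IsFiniteMeasure μ]
    (Y E F : Type) [TopologicalSpace Y] [LocallyCompactSpace Y]
    [NormedAddCommGroup E] [NormedSpace ℝ E] [NormedAddCommGroup F] [NormedSpace ℝ F]
    (T : C(X × Y, E →L[ℝ] F)) (s : C(X × Y, Y)),
    ∃ Φ : C(C(Y, E), C(Y, F)), ∀ (ψ : C(Y, E)) (y : Y), Φ ψ y = ∫ x, T (x, y) (ψ (s (x, y))) ∂μ

/-- HUL: the mean value lies in the convex hull of the values -/
def S_HUL : Prop := ∀ (X : Type) [TopologicalSpace X] [CompactSpace X] [SecondCountableTopology X]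
    [MeasurableSpace X] [BorelSpace X] (μ : Measure X) [IsProbabilityMeasure μ]
    (E : Type) [NormedAddCommGroup E] [NormedSpace ℝ E] [FiniteDimensional ℝ E] (f : X → E),
    Continuous f → ∫ x, f x ∂μ ∈ convexHull ℝ (Set.range f)

/-- the matrices of `SU(2)` acting on the last two coordinates -/
def rt (α β : ℂ) (z : Fin 3 → ℂ) : Fin 3 → ℂ :=
  ![z 0, α * z 1 - conj β * z 2, β * z 1 + conj α * z 2]

/-- QUA: the action of the unit quaternions -/
def S_QUA : Prop := ∃ ρ : Metric.sphere (0 : ℍ) 1 → ((Fin 3 → ℂ) →L[ℝ] (Fin 3 → ℂ)),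
    Continuous ρ ∧ (∀ g h z, ρ (g * h) z = ρ h (ρ g z)) ∧
    (∀ g, ∃ α β : ℂ, ‖α‖ ^ 2 + ‖β‖ ^ 2 = 1 ∧ ∀ z, ρ g z = rt α β z) ∧
    (∀ α β : ℂ, ‖α‖ ^ 2 + ‖β‖ ^ 2 = 1 → ∃ g, ∀ z, ρ g z = rt α β z)

end Pool.Agent.K6.H10.AV
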