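import Pool.Agent.K6.H10.AV.Fin

/-!
# Forms which tame an invariant field of endomorphisms
-/

set_option autoImplicit false

open scoped Topology ComplexConjugate

noncomputable section

namespace Pool.Agent.K6.H10.AV

open Pool.Agent.K6.H10.SY
open Pool.Agent.K6.H10.SU

/-- `SU(2)`-invariant fields of maps of the tangent spaces -/
def SUField (A : V → V → V) : Prop :=
  ∀ α β : ℂ, ‖α‖ ^ 2 + ‖β‖ ^ 2 = 1 → ∀ z v, A (rot α β z) (rot α β v) = rot α β (A z v)

/-- `Ω (v, A v) > 0` for all nonzero directions `v` -/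
def Tames (Ω : V → Bil) (A : V → V → V) : Prop :=
  ∀ z : V, z ≠ 0 → ∀ v, (¬ ∃ c : ℂ, v = c • z) → 0 < Ω z v (A z v)

theorem rot_dir {α β : ℂ} (h : ‖α‖ ^ 2 + ‖β‖ ^ 2 = 1) {z v : V} (hv : ¬ ∃ c : ℂ, v = c • z) :
    ¬ ∃ c : ℂ, rot α β v = c • rot α β z := by
  rintro ⟨c, hc⟩
  refine hv ⟨c, ?_⟩
  have h1 : rot α β (v - c • z) = 0 := by
    have h2 : rot α β (v - c • z) = rot α β v - rot α β (c • z) := by
      funext i
      fin_cases i <;> simp [rot] <;> ring
    rw [h2, rot_csmul, hc, sub_self]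
  by_contra hne
  exact rot_ne h (sub_ne_zero.2 hne) h1

theorem convNondeg_of_tames {Ω : V → Bil} {A : V → V → V} (hA : SUField A) (h : Tames Ω A) :
    ConvNondeg Ω := by
  intro η hη z hz v hv
  by_contra hc
  have h1 : orbit Ω ⊆ {η | 0 < η z v (A z v)} := by
    rintro η' ⟨α, β, h2, h3⟩
    show 0 < η' z v (A z v)
    rw [h3, ← hA α β h2]
    exact h _ (rot_ne h2 hz) _ (rot_dir h2 hc)
  have h2 : Convex ℝ {η : V → Bil | 0 < η z v (A z v)} := by
    intro η₁ h₁ η₂ h₂ a b ha hb hab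
    show 0 < a * η₁ z v (A z v) + b * η₂ z v (A z v)
    have h₁' : 0 < η₁ z v (A z v) := h₁
    have h₂' : 0 < η₂ z v (A z v) := h₂
    rcases ha.eq_or_lt with h0 | h0
    · have : b = 1 := by linarith
      rw [← h0, this]
      linarith
    · have := mul_pos h0 h₁'
      have := mul_nonneg hb h₂'.le
      linarith
  have h3 : 0 < η z v (A z v) := convexHull_min h1 h2 hη
  rw [hv] at h3
  exact lt_irrefl _ h3

end Pool.Agent.K6.H10.AV
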